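import Pool.Agent.Helper15.DAK.Stmts
import Pool.Agent.Helper25.DAF.SMOOTH
import Pool.Agent.Helper38.DAF.SFG

/-! Row COORDK of `Pool/Agent/Helper15/DAK/Stmts.lean` (MP_c8969c_ag). -/

set_option autoImplicit false

open AlgebraicGeometry CategoryTheory TopologicalSpace Opposite

namespace Pool.Agent.Helper15.DAK

open Pool.Agent.Helper15.DAF

namespace S61

variable {X : Scheme.{0}} [IsIntegral X] (s : X ⟶ Spec (CommRingCat.of ℂ))

/-- every element of the function field has a denominator in `O(V)` -/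
theorem exists_den (V : Aff X) (a : FF s) : ∃ c ∈ O s V, c ≠ 0 ∧ c * a ∈ O s V := by
  letI a2 : Algebra Γ(X, V.U) (FF s) := (ev s V).toAlgebra
  haveI : IsFractionRing Γ(X, V.U) (FF s) :=
    functionField_isFractionRing_of_isAffineOpen X V.U V.aff
  obtain ⟨⟨x, m⟩, hxm⟩ := IsLocalization.surj (nonZeroDivisors Γ(X, V.U)) a
  refine ⟨ev s V (m : Γ(X, V.U)), ⟨_, rfl⟩, ?_, ⟨x, ?_⟩⟩
  · exact IsLocalization.to_map_ne_zero_of_mem_nonZeroDivisors (S := FF s) le_rfl m.2
  · have h : a * ev s V (m : Γ(X, V.U)) = ev s V x := hxm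
    rw [mul_comm]
    exact h.symm

theorem exists_den_finset (V : Aff X) (d : Module.End ℂ (FF s)) (S : Finset (FF s)) :
    ∃ c ∈ O s V, c ≠ 0 ∧ ∀ b ∈ S, c * d b ∈ O s V := by
  classical
  induction S using Finset.induction_on with
  | empty => exact ⟨1, (O s V).one_mem, one_ne_zero, fun b hb => absurd hb (by simp)⟩
  | insert a T _ ih =>
    obtain ⟨c, hc, hc0, hcT⟩ := ih
    obtain ⟨c', hc', hc0', hca⟩ := exists_den s V (d a)
    refine ⟨c * c', (O s V).mul_mem hc hc', mul_ne_zero hc0 hc0', fun b hb => ?_⟩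
    rcases Finset.mem_insert.1 hb with rfl | hb
    · rw [mul_assoc]
      exact (O s V).mul_mem hc hca
    · rw [mul_comm c c', mul_assoc]
      exact (O s V).mul_mem hc' (hcT b hb)

end S61

/-- Row COORDK. -/
theorem st_COORDK : ST_COORDK := by
  intro X _ s _ _
  obtain ⟨V, _, n, t, y, hc⟩ := st_SMOOTH X s (genericPoint X)
  obtain ⟨S, hS⟩ := st_SFG X s V
  refine ⟨n, t, y, fun i => (hc.1 i).1, hc.2.2.1, fun d hd => ?_⟩
  obtain ⟨c, hcO, hc0, hcS⟩ := S61.exists_den_finset s V d S
  have hd0 : ∀ z : ℂ, d (algebraMap ℂ (FF s) z) = 0 := by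
    intro z
    have h5 : d 1 = 0 := by
      have h6 := hd 1 1
      rw [mul_one, one_mul] at h6
      exact left_eq_add.1 h6
    rw [Algebra.algebraMap_eq_smul_one, map_smul, h5, smul_zero]
  have hB : ∀ b ∈ O s V, c * d b ∈ O s V := by
    intro b hb
    have hb' : b ∈ Algebra.adjoin ℂ (S : Set (FF s)) := hS ▸ hb
    induction hb' using Algebra.adjoin_induction with
    | mem x hx => exact hcS x hx
    | algebraMap z => rw [hd0, mul_zero]; exact (O s V).zero_mem
    | add x z hx hz ihx ihz =>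
      rw [map_add, mul_add]
      exact (O s V).add_mem (ihx (hS ▸ hx)) (ihz (hS ▸ hz))
    | mul x z hx hz ihx ihz =>
      have h1 : c * d (x * z) = x * (c * d z) + z * (c * d x) := by rw [hd]; ring
      rw [h1]
      exact (O s V).add_mem ((O s V).mul_mem (hS ▸ hx) (ihz (hS ▸ hz)))
        ((O s V).mul_mem (hS ▸ hz) (ihx (hS ▸ hx)))
  have hder : mulOp c * d ∈ Der (O s V) := by
    refine ⟨fun a b => ?_, fun b hb => hB b hb⟩
    change c * d (a * b) = a * (c * d b) + b * (c * d a)
    rw [hd]; ring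
  have h2 := hc.2.2.2 (mulOp c * d) hder
  refine LinearMap.ext fun a => ?_
  have h3 := congrArg (fun f : Module.End ℂ (FF s) => f a) h2
  simp only [LinearMap.sum_apply] at h3
  have h4 : c * d a = c * ∑ i, d (y i) * t i a := by
    rw [Finset.mul_sum]
    refine h3.trans (Finset.sum_congr rfl fun i _ => ?_)
    change c * d (y i) * t i a = c * (d (y i) * t i a)
    ring
  rw [LinearMap.sum_apply]
  exact mul_left_cancel₀ hc0 h4

end Pool.Agent.Helper15.DAK
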